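import Pool.Agent.Lib.MP_1b7159_an.Over

/-!
# MP_1b7159_an, Q1: negative answer.

Over the real and over the complex numbers there is a Banach space with the bilinear extension property for
subspaces (BEPS) which is not of Rademacher type 2.
-/

set_option autoImplicit false

namespace Pool.Agent.Results.MP_1b7159_an.BEPSNotType2

open Pool.Agent.MP_1b7159_an

/-- Q1 is answered in the negative, for both scalar fields (`RCLike 𝕜` means that `𝕜` is `ℝ` or `ℂ`): some
Banach space `X` over `𝕜` has (BEPS) but not type 2.
`BEPSOver 𝕜 X`: for each closed subspace `Y` of `X` every bounded bilinear form on `Y × Y` extends to a bounded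
bilinear form on `X × X`.
`RademacherType2 X`: for some `C`, for all `n` and all `x_1, …, x_n ∈ X`, the square root of the mean of
`‖∑ ± x_i‖²` over all `2^n` choices of signs is at most `C (∑ ‖x_i‖²)^(1/2)`. -/
theorem result (𝕜 : Type) [RCLike 𝕜] :
    ∃ (X : Type) (_ : NormedAddCommGroup X) (_ : NormedSpace 𝕜 X) (_ : CompleteSpace X),
      BEPSOver 𝕜 X ∧ ¬ RademacherType2 X :=
  main_over 𝕜

end Pool.Agent.Results.MP_1b7159_an.BEPSNotType2
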